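import Pool.Agent.U536.DS.F
import Pool.Agent.Results.MP_cb27ba_nt.MultiplicativeValues

/-!
# The initial segments of arbitrary sets of integers for all primes near the integral combinations of two divisors of a
value of a multiplicative function

Let `f` be a positive multiplicative function of at most polynomial growth such that `f p ≤ M p` for the large primes `p`,
with different values at different large primes; for example Euler's function or the sum of the divisors. Let `G` have steps
bounded below by a positive constant and growth at most `v^d`, for example `α v^d`. Let `b < 1` and `0 ≤ c < 2 b - 1`. For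
all `m ≤ N` but `N exp (-(log N)^c)`, for EVERY integer `w ≥ exp ((log N)^b)` of the form `w = u s + v t` with divisors `s`,
`t` of `f(m)` and integers `|u|, |v| ≤ exp ((log N)^θ)`, ALL primes `p` with `|p - G w| ≤ w ^ κ` are good for `𝒜` (uniformly
in the set `𝒜` of nonnegative integers), if `κ ≥ 0` and `d (1 - τ) + κ < 1`, `θ < b` (`τ > 0` depends only on `δ > 0`). The
integers `w` include all large divisors of `f(m)` and the large sums and differences of ANY two divisors of `f(m)`; for
Euler's function, those of the orders of any two units modulo `m`.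

Proof. Write `m = k u` with `u` squarefree and composed of primes larger than `N^(1/J)`, `J = (log N)^a`, and `k ≤ exp (4
(log N)^a)`; this is possible for all `m ≤ N` but very few. If `v ∣ f(k) f(u)`, then `v = g v'` with `g ∣ f(k)` and `v' ∣ ∏
f(p)`, and the number of such `u ≤ N / k` is at most `N / (k v')` times `(log N)^O(J)` times the number `τ_J(v')` of the
ordered factorizations of `v'` into `J` factors. Take for `v` the least common multiple of `s` and `t`: the sum of `1 / [s,
t]` over the pairs `s, t ≤ X` with `u s + v t = w` is at most `4 U (1 + log X) τ(w) / w` if `|u|, |v| ≤ U`; the inequality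
`τ_J^q ≤ τ_K` for `K ≥ J^q` and Hölder's inequality bound the sum over the pairs with exceptional `w`. The integers of the
hand-in `CommonFactors` of this page have a large common factor with `f(m)`; the sums and differences of two divisors of
`f(m)` have in general none. The file `MultiplicativeValues` of the starting library treats the integers `w = f(m)` only,
with `N / (log N)^U` exceptions.
-/

set_option autoImplicit false

namespace Pool.Agent.Results.MP_cb27ba_nt.DivisorSums

open Finset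
open Pool.Agent.N733.TG (LM Expanding lm_totient lm_sigma expanding_pow)
open Pool.Agent.U536.DS (Comb comb_good_nat_unif comb_pm comb_orders)
open Pool.Agent.Results.MP_cb27ba_nt.MultiplicativeValues (Good count)

/-- **The initial segments of arbitrary sets of integers for all primes near the integral combinations of two divisors of a
value of a multiplicative function.** Let `f` be multiplicative and positive, of at most polynomial growth, with `f p ≤ M p`
at the large primes, and injective there. Let `G` have steps `≥ a > 0` and growth at most `v^d`. Let `b < 1` and `0 ≤ c < 2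
b - 1`, `κ ≥ 0` and `d (1 - τ) + κ < 1`, `θ < b` (`τ > 0` depends only on `δ > 0`). For all large `N`, for all `m ≤ N` but
`N exp (-(log N)^c)`, for EVERY integer `w ≥ exp ((log N)^b)` of the form `w = u s + v t` with divisors `s`, `t` of `f(m)`
and integers `|u|, |v| ≤ exp ((log N)^θ)`, ALL primes `p` with `|p - G w| ≤ w ^ κ` are good for `𝒜` (uniformly in the set
`𝒜` of nonnegative integers). All the sums and differences `≥ exp ((log N)^b)` of two divisors of `f(m)` are such integers
`w`, and for Euler's function those of the orders of two units modulo `m`. Euler's function and the sum of the divisors are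
examples of `f`, and `α v^d` with `α > 0`, `d ≥ 1` is an example of `G`. -/
theorem result :
    (∀ δ : ℝ, 0 < δ → ∃ τ : ℝ, 0 < τ ∧ ∀ f : ℕ → ℕ, LM f → ∀ (G : ℕ → ℝ) (d : ℝ), Expanding G d →
      ∀ κ θ b c : ℝ, 0 ≤ κ → d * (1 - τ) + κ < 1 → θ < b → b < 1 → 0 ≤ c → c < 2 * b - 1 →
      ∃ N₀ : ℕ, ∀ (𝒜 : Set ℕ) (N : ℕ), N₀ ≤ N →
        ({m : ℕ | 1 ≤ m ∧ m ≤ N ∧ ¬ ∀ w : ℕ, Comb f b θ N m w → ∀ p : ℕ, p.Prime → |(p : ℝ) - G w| ≤ (w : ℝ) ^ κ →
          Good δ τ 𝒜 p}.ncard : ℝ) ≤ N * Real.exp (-(Real.log N ^ c))) ∧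
    (LM Nat.totient ∧ LM (fun m => ∑ d ∈ m.divisors, d)) ∧
    (∀ α d : ℝ, 0 < α → 1 ≤ d → Expanding (fun v => α * (v : ℝ) ^ d) d) ∧
    (∀ (f : ℕ → ℕ) (b θ : ℝ) (N m s t : ℕ), s ∣ f m → t ∣ f m →
      (Real.exp (Real.log N ^ b) ≤ ((s + t : ℕ) : ℝ) → Comb f b θ N m (s + t)) ∧
      (Real.exp (Real.log N ^ b) ≤ ((s - t : ℕ) : ℝ) → Comb f b θ N m (s - t)) ∧
      (Real.exp (Real.log N ^ b) ≤ (s : ℝ) → Comb f b θ N m s)) ∧
    ∀ (b θ : ℝ) (N m : ℕ) (x y : (ZMod m)ˣ),
      (Real.exp (Real.log N ^ b) ≤ ((orderOf x + orderOf y : ℕ) : ℝ) → Comb Nat.totient b θ N m (orderOf x + orderOf y)) ∧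
      (Real.exp (Real.log N ^ b) ≤ ((orderOf x - orderOf y : ℕ) : ℝ) → Comb Nat.totient b θ N m (orderOf x - orderOf y)) := by
  refine ⟨?_, ⟨lm_totient, lm_sigma⟩, fun α d hα hd => expanding_pow hα hd, fun f b θ N m s t hs ht => comb_pm hs ht,
    fun b θ N m x y => comb_orders x y⟩
  intro δ hδ
  obtain ⟨τ, C, hτ, hτ1, hcount⟩ := count δ hδ
  refine ⟨τ, hτ, fun f hf G d hG κ θ b c hκ h1 hθ hb hc hcb => ?_⟩
  obtain ⟨N₀, hN₀⟩ := comb_good_nat_unif hf hG (s := 1 - τ) (by linarith) hκ h1 hθ hb hc hcb C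
  refine ⟨N₀, fun 𝒜 N hN => ?_⟩
  have h2 := hN₀ (fun p => p.Prime ∧ ¬ Good δ τ 𝒜 p) (hcount 𝒜) N hN
  refine le_trans ?_ h2
  have hfin : {m : ℕ | 1 ≤ m ∧ m ≤ N ∧ ∃ w : ℕ, Comb f b θ N m w ∧ ∃ n : ℕ, 1 ≤ n ∧ |(n : ℝ) - G w| ≤ (w : ℝ) ^ κ ∧
      (n.Prime ∧ ¬ Good δ τ 𝒜 n)}.Finite := (Set.finite_Iic N).subset (fun m hm => hm.2.1)
  have hsub : {m : ℕ | 1 ≤ m ∧ m ≤ N ∧ ¬ ∀ w : ℕ, Comb f b θ N m w → ∀ p : ℕ, p.Prime →
      |(p : ℝ) - G w| ≤ (w : ℝ) ^ κ → Good δ τ 𝒜 p} ⊆
      {m : ℕ | 1 ≤ m ∧ m ≤ N ∧ ∃ w : ℕ, Comb f b θ N m w ∧ ∃ n : ℕ, 1 ≤ n ∧ |(n : ℝ) - G w| ≤ (w : ℝ) ^ κ ∧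
      (n.Prime ∧ ¬ Good δ τ 𝒜 n)} := by
    rintro m ⟨g1, g2, g3⟩
    push Not at g3
    obtain ⟨w, hw, p, g4, g5, g6⟩ := g3
    exact ⟨g1, g2, w, hw, p, g4.one_lt.le, g5, g4, g6⟩
  exact_mod_cast Set.ncard_le_ncard hsub hfin

end Pool.Agent.Results.MP_cb27ba_nt.DivisorSums
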