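import Pool.Agent.U449.BV.Q
import Pool.Agent.Results.MP_cb27ba_nt.AlmostAllPrimes

/-!
# Power saving for the character sums over `A - A` modulo all primes near the values of polynomials on arbitrary sets

Let `A` be a set of integers in `[1, N]`, `Q ^ δ ≤ N ≤ Q`, with additive energy at most `N ^ (ρ - 1) |A| ^ 4`. Let
`f(x, y)` be an integer polynomial of degree at most `d` with a monomial which contains both variables, let `S`, `T` be ARBITRARY
finite sets of integers, and let `g`, `h` be ARBITRARY real functions with `2 |f(s, t) + g(s) + h(t)| ≤ Q` on `S × T`. Let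
`1 ≤ W ≤ Q / 2`. For all but `Θ |S| |T|` of the pairs `(s, t)` in `S × T`, where

  `Θ ^ 2 = 28 d (Q ^ 2 N) ^ ρ Q ^ ε (1 / |S| + W / |T|)`,

ALL primes `p` at a distance of at most `W` from `f(s, t) + g(s) + h(t)` and ALL nonprincipal characters `χ` modulo `p` satisfy
`|∑ χ(a - b)| < |A| ^ (2 - τ)`, the sum over all `a`, `b` in `A`. The same holds for the least residues of
`f(s, t) + g(s) + h(t)` modulo a prime, where `S`, `T` are arbitrary sets of residues, and for the values `F(s, t)` of all functions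
of two variables with few coincidences (`Rare`).

Since `S`, `T`, `g` and `h` are arbitrary, the values have no arithmetic structure, and a value can be taken by very many pairs. So
the number of the exceptional primes (starting theorem `AlmostAllPrimes`) does not give the result directly. Proof: the
inequality of Cauchy and Schwarz; for most pairs `s, s'` the difference `F(s, t) - F(s', t)` is small for few `t`
(`Pool.Agent.U449.BV`).
-/

set_option autoImplicit false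

namespace Pool.Agent.Results.MP_cb27ba_nt.MixedPolynomials

open Pool.Agent.U449.BV (Rare dense_window polys residues)

/-- Some nonprincipal character modulo `p` has no power saving on `A - A`. -/
def Bad (τ : ℝ) (A : Finset ℕ) (p : ℕ) : Prop :=
  ∃ χ : DirichletCharacter ℂ p, χ ≠ 1 ∧
    (A.card : ℝ) ^ (2 - τ) ≤ ‖∑ a ∈ A, ∑ b ∈ A, χ ((a : ZMod p) - (b : ZMod p))‖

/-- For ALL primes `p` with `|p - x| ≤ W` and ALL nonprincipal characters modulo `p` the sum over `A × A` has a power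
saving. -/
def Near (τ : ℝ) (A : Finset ℕ) (W x : ℝ) : Prop :=
  ∀ p : ℕ, p.Prime → |(p : ℝ) - x| ≤ W → ∀ χ : DirichletCharacter ℂ p, χ ≠ 1 →
    ‖∑ a ∈ A, ∑ b ∈ A, χ ((a : ZMod p) - (b : ZMod p))‖ < (A.card : ℝ) ^ (2 - τ)

/-- The number of the primes with an exceptional character. -/
lemma count (τ : ℝ) (A : Finset ℕ) (Q : ℕ) :
    ({p : ℕ | p ≤ Q ∧ p.Prime ∧ Bad τ A p}.ncard : ℝ) ≤
      ∑ p ∈ (Finset.Icc 1 Q).filter Nat.Prime,
        ({χ : DirichletCharacter ℂ p | χ ≠ 1 ∧ (A.card : ℝ) ^ (2 - τ)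
          ≤ ‖∑ a ∈ A, ∑ b ∈ A, χ ((a : ZMod p) - (b : ZMod p))‖}.ncard : ℝ) := by
  classical
  have h1 : {p : ℕ | p ≤ Q ∧ p.Prime ∧ Bad τ A p} =
      ((((Finset.Icc 1 Q).filter Nat.Prime).filter (Bad τ A) : Finset ℕ) : Set ℕ) := by
    ext p
    simp only [Set.mem_ofPred_eq, Finset.coe_filter, Finset.mem_filter, Finset.mem_Icc]
    constructor
    · rintro ⟨h1, h2, h3⟩
      exact ⟨⟨⟨h2.one_le, h1⟩, h2⟩, h3⟩
    · rintro ⟨⟨⟨-, h1⟩, h2⟩, h3⟩
      exact ⟨h1, h2, h3⟩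
  rw [h1, Set.ncard_coe_finset, Finset.card_eq_sum_ones, Finset.sum_filter, Nat.cast_sum]
  refine Finset.sum_le_sum fun p hp => ?_
  have hp' : p.Prime := (Finset.mem_filter.1 hp).2
  have : NeZero p := ⟨hp'.ne_zero⟩
  split_ifs with hb
  · obtain ⟨χ, h2, h3⟩ := hb
    have h4 : 0 < {χ : DirichletCharacter ℂ p | χ ≠ 1 ∧ (A.card : ℝ) ^ (2 - τ)
        ≤ ‖∑ a ∈ A, ∑ b ∈ A, χ ((a : ZMod p) - (b : ZMod p))‖}.ncard :=
      (Set.ncard_pos (Set.toFinite _)).2 ⟨χ, h2, h3⟩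
    exact_mod_cast h4
  · exact_mod_cast Nat.zero_le _

/-- **Theorem.** (1) Power saving for ALL primes near all but few of the values of functions of two variables with few
coincidences on ARBITRARY finite sets, and ALL nonprincipal characters modulo these primes. (2) Coincidences are rare for
`f(a, b) + g(a) + h(b)`, where `f` is any
integer polynomial with a monomial which contains both variables, and `g` and `h` are arbitrary real functions, on arbitrary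
finite sets of integers. (3) The same is true of the least residues of `f(a, b) + g(a) + h(b)` modulo a prime `p`. -/
theorem result :
    (∀ δ ε : ℝ, 0 < δ → 0 < ε → ∃ τ : ℝ, 0 < τ ∧ ∃ Q₀ : ℕ, ∀ Q : ℕ, Q₀ ≤ Q → ∀ N : ℕ, (Q : ℝ) ^ δ ≤ N → N ≤ Q →
      ∀ A : Finset ℕ, A ⊆ Finset.Icc 1 N → A.Nonempty → ∀ ρ : ℝ, 0 ≤ ρ →
        (N : ℝ) * (Finset.addEnergy A A : ℝ) ≤ (N : ℝ) ^ ρ * (A.card : ℝ) ^ 4 →
      ∀ (d : ℕ) (W : ℝ), 1 ≤ W → 2 * W ≤ Q →
      ∀ (α β : Type) (S : Finset α) (T : Finset β) (F : α → β → ℝ), (∀ a ∈ S, ∀ b ∈ T, 2 * |F a b| ≤ Q) → Rare d S T F →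
        ({z : α × β | z.1 ∈ S ∧ z.2 ∈ T ∧ ¬ Near τ A W (F z.1 z.2)}.ncard : ℝ) ^ 2 ≤
          28 * d * (((Q : ℝ) ^ 2 * N) ^ ρ * (Q : ℝ) ^ ε) * (1 / S.card + W / T.card) * ((S.card : ℝ) * T.card) ^ 2) ∧
    (∀ (d : ℕ) (f : MvPolynomial (Fin 2) ℤ), f.totalDegree ≤ d → (∃ m ∈ f.support, m 0 ≠ 0 ∧ m 1 ≠ 0) →
      ∀ (g h : ℤ → ℝ) (A B : Finset ℤ),
        Rare d A B (fun a b => ((MvPolynomial.eval ![a, b] f : ℤ) : ℝ) + g a + h b)) ∧
    ∀ (p : ℕ) [Fact p.Prime] (d : ℕ) (f : MvPolynomial (Fin 2) (ZMod p)), f.totalDegree ≤ d →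
      (∃ m ∈ f.support, m 0 ≠ 0 ∧ m 1 ≠ 0) → ∀ (g h : ZMod p → ZMod p) (A B : Finset (ZMod p)),
        Rare d A B (fun a b => (((MvPolynomial.eval ![a, b] f + g a + h b).val : ℕ) : ℝ)) := by
  refine ⟨fun δ ε hδ hε => ?_, polys, residues⟩
  obtain ⟨τ, hτ, Q₀, h⟩ := AlmostAllPrimes.result δ ε hδ hε
  refine ⟨τ, hτ, Q₀, fun Q hQ N hN hNQ A hA hA0 ρ hρ hE d W hW hWQ α β S T F hF hR => ?_⟩
  have hcount := (count τ A Q).trans (h Q hQ N hN hNQ A hA hA0 ρ hρ hE)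
  have hfin : {p : ℕ | p ≤ Q ∧ p.Prime ∧ Bad τ A p}.Finite := (Set.finite_Iic Q).subset fun n hn => hn.1
  have hsub : {t : ℕ | t ∈ {p : ℕ | p ≤ Q ∧ p.Prime ∧ Bad τ A p} ∧ ((t : ℕ) : ℝ) ≤ 2 * (Q : ℝ)} ⊆
      {p : ℕ | p ≤ Q ∧ p.Prime ∧ Bad τ A p} := fun t ht => ht.1
  have h1 := dense_window (T := ℕ) (α := α) (β := β) (fun n => (n : ℝ)) {p : ℕ | p ≤ Q ∧ p.Prime ∧ Bad τ A p}
    (Y := Q) (W := W) hW (by linarith) (((Q : ℝ) ^ 2 * N) ^ ρ * (Q : ℝ) ^ ε)
    ⟨hfin.subset hsub, le_trans (by exact_mod_cast Set.ncard_le_ncard hsub hfin) hcount⟩ (d := d) (A := S) (B := T) (F := F)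
    (fun a ha b hb => by
      have h2 := hF a ha b hb
      have h3 := abs_nonneg (F a b)
      linarith) hR
  have h4 : ({z : α × β | z.1 ∈ S ∧ z.2 ∈ T ∧ ¬ Near τ A W (F z.1 z.2)}.ncard : ℝ) ≤
      ({z : α × β | z.1 ∈ S ∧ z.2 ∈ T ∧
        ∃ t ∈ {p : ℕ | p ≤ Q ∧ p.Prime ∧ Bad τ A p}, |((t : ℕ) : ℝ) - F z.1 z.2| ≤ W}.ncard : ℝ) := by
    refine Nat.cast_le.2 (Set.ncard_le_ncard ?_ ?_)
    · rintro z ⟨hz1, hz2, hz3⟩
      unfold Near at hz3
      push Not at hz3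
      obtain ⟨n, hn0, hn1, χ, hχ, hn2⟩ := hz3
      refine ⟨hz1, hz2, n, ⟨?_, hn0, χ, hχ, hn2⟩, hn1⟩
      have h5 := hF _ hz1 _ hz2
      have h6 := (abs_le.1 hn1).2
      have h7 := le_abs_self (F z.1 z.2)
      have h8 : (n : ℝ) ≤ Q := by linarith
      exact_mod_cast h8
    · apply (S ×ˢ T).finite_toSet.subset
      rintro z ⟨hz1, hz2, -⟩
      rw [Finset.mem_coe, Finset.mem_product]
      exact ⟨hz1, hz2⟩
  exact (pow_le_pow_left₀ (Nat.cast_nonneg _) h4 2).trans h1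

end Pool.Agent.Results.MP_cb27ba_nt.MixedPolynomials
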