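import Pool.Agent.U405.RS.F
import Pool.Agent.U405.RS.F2
import Pool.Agent.Results.MP_cb27ba_nt.InitialSegments

/-!
# Sums of Legendre symbols over differences modulo EVERY prime near values of `f` at thin sets of arguments

Let `f` be a positive multiplicative function of at most polynomial growth which for each `a ≥ 1` is injective at the powers
`p ^ a` of the large primes and at most `M p ^ a` there; for example Euler's function or the sum of the divisors. For every `δ > 0` there is `τ > 0` such that the following holds for every set `𝒜` of nonnegative integers. Let `α > 0`, `d ≥ 1`,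
`κ ≥ 0` and `e = d (1 - τ) + κ`. For EVERY prime `p` with `|p - α f(v)^d| ≤ f(v)^κ` for which `𝒜(p)`, the set of the elements of `𝒜`
below `p`, has at least `p^δ` elements, ALL its subsets `A` with at least `|𝒜(p)|^(1-τ)` elements satisfy
`|∑_{a, b ∈ A} ((a - b) / p)| < |A|^(2-τ)`, for almost all `v` (with a saving of any power of the logarithm) in each of these sets:

* the values of any integer polynomial without repeated roots, of degree `< 1 / e`;
* the shifted primes `p + a`, `a` any integer, if `e < 1`;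
* the intervals `(x, x + y]`, `x^τ ≤ y ≤ x`, for every `τ > e`, `τ ≤ 1`.

For instance this holds for all primes within `p^(τ/2)` of `φ(p - 1)` or `σ(p + 1)`, for almost all primes `p`.

Proof. Own tool `Pool.Agent.U405.RS`: let `S` be a set of at least `N^(θ + δ)` integers up to `N` with at most
`B g^ω(k) |S| / k` multiples of `k` for every `k ≤ N^δ`, and let `W` have at most `C X^θ` elements up to `X`. Then `f(m) ∈ W` for at
most `|S| / (log N)^U` of the `m` in `S`. For this write `m = k w` with `k` composed of the primes `≤ z = N^(1 / J)`, `J` a small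
multiple of `log log N`. By Rankin's method with the weights `g^ω(k)` one has `k ≤ N^η` for most `m`; and `w` has at most `J`
prime factors and exponents `≤ J`, so that `w` is determined by `f(w)` up to `(J τ(f(w)) + 1)^J = N^o(1)` possibilities. The three
kinds of sets satisfy the hypothesis: for polynomials because `P` has at most `g` zeros modulo every prime power (lifting of
zeros by the identity `U P + V P' = R`), for shifted primes by the Brun-Titchmarsh inequality (library). The number of exceptional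
primes is bounded by the starting theorem `InitialSegments` of this problem.
-/

set_option autoImplicit false

namespace Pool.Agent.Results.MP_cb27ba_nt.SparseArguments

open Finset
open Pool.Agent.N733.TG (Expanding expanding_pow)
open Pool.Agent.U405.RS (PM Sparse sparse_nat examples)

open scoped Classical in
/-- the elements of `𝒜` below `p` -/
noncomputable def seg (𝒜 : Set ℕ) (p : ℕ) : Finset ℕ := (range p).filter (fun n => n ∈ 𝒜)

/-- the sum of the Legendre symbols of the differences -/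
noncomputable def S (p : ℕ) (A : Finset ℕ) : ℝ := ∑ a ∈ A, ∑ b ∈ A, (jacobiSym ((a : ℤ) - b) p : ℝ)

/-- the bound of the question, with saving `τ`, for the quadratic character modulo `p` and all subsets of `𝒜(p)` with at least
`|𝒜(p)| ^ (1 - τ)` elements, if `|𝒜(p)| ≥ p ^ δ` -/
def Good (δ τ : ℝ) (𝒜 : Set ℕ) (p : ℕ) : Prop :=
  (p : ℝ) ^ δ ≤ (seg 𝒜 p).card → ∀ A ⊆ seg 𝒜 p, ((seg 𝒜 p).card : ℝ) ^ (1 - τ) ≤ A.card →
    |S p A| < (A.card : ℝ) ^ (2 - τ)

/-- the number of the exceptional primes, uniformly in `𝒜` -/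
lemma count (δ : ℝ) (hδ : 0 < δ) : ∃ τ C : ℝ, 0 < τ ∧ τ ≤ 1 ∧ ∀ (𝒜 : Set ℕ) (X : ℕ), 1 ≤ X →
    ({t : ℕ | 1 ≤ t ∧ t ≤ X ∧ (t.Prime ∧ ¬ Good δ τ 𝒜 t)}.ncard : ℝ) ≤ C * (X : ℝ) ^ (1 - τ) := by
  obtain ⟨τ', hτ', Q₀, hQ₀⟩ := InitialSegments.result δ hδ
  obtain ⟨τ, hτd⟩ : ∃ τ, τ = min τ' 1 := ⟨_, rfl⟩
  have hτ : 0 < τ := by rw [hτd]; exact lt_min hτ' one_pos
  have hτ1 : τ ≤ 1 := by rw [hτd]; exact min_le_right _ _
  have hττ : τ ≤ τ' := by rw [hτd]; exact min_le_left _ _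
  refine ⟨τ, (Q₀ : ℝ) + 1, hτ, hτ1, fun 𝒜 X hX => ?_⟩
  have hkey : ∀ Q : ℕ, Q₀ ≤ Q → 1 ≤ Q →
      ({p : ℕ | 1 ≤ p ∧ p ≤ Q ∧ (p.Prime ∧ ¬ Good δ τ 𝒜 p)}.ncard : ℝ) ≤ (Q : ℝ) ^ (1 - τ) := by
    intro Q hQ hQ1
    have h := hQ₀ Q hQ 𝒜
    have hQ1' : (1 : ℝ) ≤ Q := by exact_mod_cast hQ1
    have hfin : {p : ℕ | p.Prime ∧ p ≤ Q ∧ (p : ℝ) ^ δ ≤ (InitialSegments.seg 𝒜 p).card ∧ ∃ A ⊆ InitialSegments.seg 𝒜 p,
        ((InitialSegments.seg 𝒜 p).card : ℝ) ^ (1 - τ') ≤ A.card ∧ (A.card : ℝ) ^ (2 - τ') ≤ |InitialSegments.S p A|}.Finite :=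
      (Set.finite_Iic Q).subset (fun p hp => hp.2.1)
    have hsub : {p : ℕ | 1 ≤ p ∧ p ≤ Q ∧ (p.Prime ∧ ¬ Good δ τ 𝒜 p)} ⊆
        {p : ℕ | p.Prime ∧ p ≤ Q ∧ (p : ℝ) ^ δ ≤ (InitialSegments.seg 𝒜 p).card ∧ ∃ A ⊆ InitialSegments.seg 𝒜 p,
        ((InitialSegments.seg 𝒜 p).card : ℝ) ^ (1 - τ') ≤ A.card ∧ (A.card : ℝ) ^ (2 - τ') ≤ |InitialSegments.S p A|} := by
      rintro p ⟨g1, g2, g3, g4⟩
      unfold Good at g4
      push Not at g4
      obtain ⟨g5, A, g6, g7, g8⟩ := g4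
      refine ⟨g3, g2, g5, A, g6, ?_, ?_⟩
      · have hp0 : (0 : ℝ) < (p : ℝ) ^ δ := Real.rpow_pos_of_pos (by exact_mod_cast g3.pos) _
        have hc0 : 0 < (seg 𝒜 p).card := by
          have : (0 : ℝ) < (seg 𝒜 p).card := lt_of_lt_of_le hp0 g5
          exact_mod_cast this
        have hc1 : (1 : ℝ) ≤ (seg 𝒜 p).card := by exact_mod_cast hc0
        refine le_trans ?_ g7
        exact Real.rpow_le_rpow_of_exponent_le hc1 (by linarith)
      · have hp0 : (0 : ℝ) < (p : ℝ) ^ δ := Real.rpow_pos_of_pos (by exact_mod_cast g3.pos) _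
        have hc0 : (0 : ℝ) < (seg 𝒜 p).card := lt_of_lt_of_le hp0 g5
        have hA0 : (0 : ℝ) < A.card := lt_of_lt_of_le (Real.rpow_pos_of_pos hc0 _) g7
        have hA0' : 0 < A.card := by exact_mod_cast hA0
        have hA1 : (1 : ℝ) ≤ A.card := by exact_mod_cast hA0'
        refine le_trans ?_ g8
        exact Real.rpow_le_rpow_of_exponent_le hA1 (by linarith)
    calc ({p : ℕ | 1 ≤ p ∧ p ≤ Q ∧ (p.Prime ∧ ¬ Good δ τ 𝒜 p)}.ncard : ℝ) ≤ _ := by
          exact_mod_cast Set.ncard_le_ncard hsub hfin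
      _ ≤ (Q : ℝ) ^ (1 - τ') := h
      _ ≤ (Q : ℝ) ^ (1 - τ) := Real.rpow_le_rpow_of_exponent_le hQ1' (by linarith)
  have hX1 : (1 : ℝ) ≤ X := by exact_mod_cast hX
  have hXs : (1 : ℝ) ≤ (X : ℝ) ^ (1 - τ) := Real.one_le_rpow hX1 (by linarith)
  rcases le_total Q₀ X with h3 | h3
  · refine (hkey X h3 hX).trans ?_
    have : (0 : ℝ) ≤ Q₀ := Nat.cast_nonneg _
    nlinarith
  · have hsub : {t : ℕ | 1 ≤ t ∧ t ≤ X ∧ (t.Prime ∧ ¬ Good δ τ 𝒜 t)} ⊆ (Icc 1 X : Finset ℕ) := by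
      rintro t ⟨g1, g2, -⟩
      rw [Finset.mem_coe, mem_Icc]
      exact ⟨g1, g2⟩
    have h4 : {t : ℕ | 1 ≤ t ∧ t ≤ X ∧ (t.Prime ∧ ¬ Good δ τ 𝒜 t)}.ncard ≤ X := by
      refine (Set.ncard_le_ncard hsub (Finset.finite_toSet _)).trans ?_
      rw [Set.ncard_coe_finset, Nat.card_Icc]
      omega
    have h5 : ({t : ℕ | 1 ≤ t ∧ t ≤ X ∧ (t.Prime ∧ ¬ Good δ τ 𝒜 t)}.ncard : ℝ) ≤ (Q₀ : ℝ) := by
      exact_mod_cast h4.trans h3
    have : (0 : ℝ) ≤ Q₀ := Nat.cast_nonneg _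
    nlinarith

/-- every prime `p` with `|p - G v| ≤ v ^ κ` is good for `𝒜` -/
def Clear (δ τ : ℝ) (𝒜 : Set ℕ) (G : ℕ → ℝ) (κ : ℝ) (v : ℕ) : Prop :=
  ∀ p : ℕ, p.Prime → |(p : ℝ) - G v| ≤ (v : ℝ) ^ κ → Good δ τ 𝒜 p

/-- **Character sums over differences near `G (f v)` for the `v` in thin sets.** For every `δ > 0` there is `0 < τ ≤ 1` such that
for all sets `𝒜` of nonnegative integers, all `f` in the class `PM`, all `G` with steps `≥ const > 0` and growth at most `v^d`, all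
`κ ≥ 0` and all `U` the property that ALL primes `p` with `|p - G v| ≤ v^κ` are good for `𝒜` (`Good`) holds in the sense
`Sparse e f`, `e = d (1 - τ) + κ`. (`Sparse e f`: with a saving of `(log x)^U` it holds at `f v` for almost all `v` among the positive values of every integer
polynomial without repeated roots of degree `< 1 / e`; among the shifted primes `p + a` for every `a`, if `e < 1`; and in all
intervals `(x, x + y]`, `x^τ ≤ y ≤ x`, `e < τ ≤ 1`.) Euler's function and the sum of the divisors are in the class `PM`, and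
`α v^d` with `α > 0`, `d ≥ 1` is an example of `G`. -/
theorem result :
    (∀ δ : ℝ, 0 < δ → ∃ τ : ℝ, 0 < τ ∧ τ ≤ 1 ∧ ∀ 𝒜 : Set ℕ, ∀ f : ℕ → ℕ, PM f → ∀ (G : ℕ → ℝ) (d : ℝ), Expanding G d →
      ∀ κ : ℝ, 0 ≤ κ → ∀ U : ℕ, Sparse (d * (1 - τ) + κ) f (Clear δ τ 𝒜 G κ) U) ∧
    (PM Nat.totient ∧ PM (fun m => ∑ d ∈ m.divisors, d) ∧ PM (fun m => m)) ∧
    ∀ α d : ℝ, 0 < α → 1 ≤ d → Expanding (fun v => α * (v : ℝ) ^ d) d := by
  refine ⟨fun δ hδ => ?_, examples, fun α d hα hd => expanding_pow hα hd⟩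
  obtain ⟨τ, C, hτ, hτ1, hcount⟩ := count δ hδ
  refine ⟨τ, hτ, hτ1, fun 𝒜 f hf G d hG κ hκ U => ?_⟩
  have hC0 : 0 ≤ C := by
    have h1 := hcount 𝒜 1 le_rfl
    rw [Nat.cast_one, Real.one_rpow, mul_one] at h1
    exact (Nat.cast_nonneg _).trans h1
  refine (sparse_nat (fun p => p.Prime) (Good δ τ 𝒜) hf hG (s := 1 - τ) (κ := κ) (by linarith) hκ
    (fun ε hε => ⟨C, fun X hX => ?_⟩) U).imp (fun v hv p hp hw => hv p hp.pos hp hw)
  have hX1 : (1 : ℝ) ≤ X := by exact_mod_cast hX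
  exact (hcount 𝒜 X hX).trans (mul_le_mul_of_nonneg_left
    (Real.rpow_le_rpow_of_exponent_le hX1 (by linarith)) hC0)

end Pool.Agent.Results.MP_cb27ba_nt.SparseArguments
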